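import Mathlib
import Pool.Agent.N251.GA.Leaves

/-!
# Radical inequalities in rings of integers: `x ^ q - y ^ 2` with `q` odd

Let `u + v = s ^ q` with `q = 2 j + 1`. With `X = - q² u`, `Y = v`, `R² = X Y` and
`A + E R = (X - q Y + (1 - q) R) (X + Y + 2 R) ^ j` one has
`A² - X Y E² = (X - Y) ^ q (X - q² Y)`, that is `y ^ q - x² = u v E²` for `x = A / q`,
`y = (q² u + v) s`; moreover `E = Y H`.
-/

set_option autoImplicit false

namespace Pool.Agent.N348.GA

open Pool.Agent.N251.GA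

section ring

variable {R : Type} [CommRing R]

/-- the coefficients of `(X + Y + 2 R) ^ n = fst + snd R`, `R² = X Y` -/
def tw (X Y : R) : ℕ → R × R
  | 0 => (1, 0)
  | n + 1 => ((X + Y) * (tw X Y n).1 + 2 * (X * Y) * (tw X Y n).2,
      2 * (tw X Y n).1 + (X + Y) * (tw X Y n).2)

/-- the quotients of `tw X Y n` modulo `Y` -/
def rt (X Y : R) : ℕ → R × R
  | 0 => (0, 0)
  | n + 1 => (X ^ n + (X + Y) * (rt X Y n).1 + 2 * (2 * n * X ^ n + Y * (rt X Y n).2),
      2 * X * (rt X Y n).1 + (X + Y) * (rt X Y n).2 + 2 * n * X ^ n)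

theorem tw_norm (X Y : R) (n : ℕ) :
    (tw X Y n).1 ^ 2 - X * Y * (tw X Y n).2 ^ 2 = (X - Y) ^ (2 * n) := by
  induction n with
  | zero => simp [tw]
  | succ n ih =>
    have e : (X - Y) ^ (2 * (n + 1)) = (X - Y) ^ (2 * n) * (X - Y) ^ 2 := by ring
    rw [e, ← ih, tw]
    ring

/-- modulo `Y` -/
theorem tw_rt (X Y : R) (n : ℕ) : (tw X Y n).1 = X ^ n + Y * (rt X Y n).1 ∧
    X * (tw X Y n).2 = 2 * n * X ^ n + Y * (rt X Y n).2 := by
  induction n with
  | zero => simp [tw, rt]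
  | succ n ih =>
    obtain ⟨h1, h2⟩ := ih
    constructor
    · have : (tw X Y (n + 1)).1 = (X + Y) * (tw X Y n).1 + 2 * Y * (X * (tw X Y n).2) := by
        rw [tw]; ring
      rw [this, h1, h2, rt]; ring
    · have : X * (tw X Y (n + 1)).2 = 2 * X * (tw X Y n).1 + (X + Y) * (X * (tw X Y n).2) := by
        rw [tw]; ring
      rw [this, h1, h2, rt]; push_cast; ring

/-- modulo `X` -/
theorem tw_modX (X Y : R) (n : ℕ) : X ∣ (tw X Y n).1 - Y ^ n := by
  induction n with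
  | zero => simp [tw]
  | succ n ih =>
    obtain ⟨r, hr⟩ := ih
    have h1 : (tw X Y n).1 = Y ^ n + X * r := by linear_combination hr
    refine ⟨Y ^ n + (X + Y) * r + 2 * Y * (tw X Y n).2, ?_⟩
    rw [tw]
    simp only
    rw [h1]; ring

/-- modulo `X - Y` -/
theorem tw_mod (X Y : R) (n : ℕ) : (X - Y) ∣ (tw X Y (n + 1)).1 - 2 * 4 ^ n * Y ^ (n + 1) ∧
    (X - Y) ∣ (tw X Y (n + 1)).2 - 2 * 4 ^ n * Y ^ n := by
  induction n with
  | zero =>
    refine ⟨⟨1, ?_⟩, ⟨0, ?_⟩⟩ <;> simp [tw] <;> ring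
  | succ n ih =>
    obtain ⟨⟨r, hr⟩, ⟨t, ht⟩⟩ := ih
    have h1 : (tw X Y (n + 1)).1 = 2 * 4 ^ n * Y ^ (n + 1) + (X - Y) * r := by
      linear_combination hr
    have h2 : (tw X Y (n + 1)).2 = 2 * 4 ^ n * Y ^ n + (X - Y) * t := by linear_combination ht
    refine ⟨⟨2 * 4 ^ n * Y ^ (n + 1) + (X + Y) * r + 2 * X * Y * t + 4 * 4 ^ n * Y ^ (n + 1), ?_⟩,
      ⟨2 * r + (X + Y) * t + 2 * 4 ^ n * Y ^ n, ?_⟩⟩
    · rw [tw]
      simp only
      rw [h1, h2]; ring
    · rw [tw]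
      simp only
      rw [h1, h2]; ring

/-- `E` -/
def tE (q X Y : R) (j : ℕ) : R := (1 - q) * (tw X Y j).1 + (X - q * Y) * (tw X Y j).2

/-- `A` -/
def tA (q X Y : R) (j : ℕ) : R := (X - q * Y) * (tw X Y j).1 + (1 - q) * (X * Y) * (tw X Y j).2

/-- `H` -/
def tH (X Y : R) (j : ℕ) : R := -(2 * j) * (rt X Y j).1 + (rt X Y j).2 - (2 * j + 1) * (tw X Y j).2

theorem tA_tE_norm (q X Y : R) (j : ℕ) :
    tA q X Y j ^ 2 - X * Y * tE q X Y j ^ 2 = (X - Y) ^ (2 * j + 1) * (X - q ^ 2 * Y) := by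
  have h := tw_norm X Y j
  have e : (X - Y) ^ (2 * j + 1) * (X - q ^ 2 * Y) =
      (X - Y) ^ (2 * j) * ((X - Y) * (X - q ^ 2 * Y)) := by ring
  rw [e, ← h, tA, tE]
  ring

theorem tA_tE_cross (q X Y : R) (j : ℕ) :
    tE q X Y j * (tw X Y j).1 - tA q X Y j * (tw X Y j).2 = (1 - q) * (X - Y) ^ (2 * j) := by
  rw [← tw_norm X Y j, tA, tE]
  ring

theorem tA_mod (q X Y : R) (j : ℕ) :
    (X - Y) ∣ tA q X Y (j + 1) - (1 - q) * 4 ^ (j + 1) * Y ^ (j + 2) := by
  obtain ⟨⟨r, hr⟩, ⟨t, ht⟩⟩ := tw_mod X Y j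
  have h1 : (tw X Y (j + 1)).1 = 2 * 4 ^ j * Y ^ (j + 1) + (X - Y) * r := by linear_combination hr
  have h2 : (tw X Y (j + 1)).2 = 2 * 4 ^ j * Y ^ j + (X - Y) * t := by linear_combination ht
  refine ⟨(2 * 4 ^ j * Y ^ (j + 1)) + (X - q * Y) * r + (1 - q) * (X * Y) * t +
    (1 - q) * (2 * 4 ^ j * Y ^ (j + 1)), ?_⟩
  rw [tA, h1, h2]
  ring

theorem tE_eq (X Y : R) (j : ℕ) : tE (2 * (j : R) + 1) X Y j = Y * tH X Y j := by
  obtain ⟨h1, h2⟩ := tw_rt X Y j
  have e : tE (2 * (j : R) + 1) X Y j = -(2 * j) * (tw X Y j).1 + X * (tw X Y j).2 -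
      (2 * j + 1) * Y * (tw X Y j).2 := by rw [tE]; ring
  rw [e, h1, h2, tH]
  ring

/-- the identity -/
theorem main_id (j : ℕ) (u v q X : R) (hX : X = -(q ^ 2 * u)) :
    tA q X v j ^ 2 + q ^ 2 * (u * v) * tE q X v j ^ 2 = q ^ 2 * ((q ^ 2 * u + v) ^ (2 * j + 1) *
      (u + v)) := by
  have h1 := tA_tE_norm q X v j
  have hodd : (-1 : R) ^ (2 * j + 1) = -1 := by rw [pow_succ, pow_mul]; simp
  have h2 : (X - v) ^ (2 * j + 1) = -(q ^ 2 * u + v) ^ (2 * j + 1) := by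
    rw [show X - v = (-1) * (q ^ 2 * u + v) by rw [hX]; ring, mul_pow, hodd]; ring
  rw [h2] at h1
  have h3 : X - q ^ 2 * v = -(q ^ 2 * (u + v)) := by rw [hX]; ring
  rw [h3] at h1
  have h4 : X * v = -(q ^ 2 * (u * v)) := by rw [hX]; ring
  rw [h4] at h1
  linear_combination h1

/-- `x` -/
def tx (q u v : R) (j : ℕ) : R :=
  -((q * u + v) * (tw (-(q ^ 2 * u)) v j).1 + (1 - q) * (q * u * v) * (tw (-(q ^ 2 * u)) v j).2)

theorem tA_tx (q u v : R) (j : ℕ) : tA q (-(q ^ 2 * u)) v j = q * tx q u v j := by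
  rw [tA, tx]; ring

end ring

section maps

variable {R S : Type} [CommRing R] [CommRing S] (f : R →+* S)

theorem map_tw (X Y : R) (n : ℕ) :
    f (tw X Y n).1 = (tw (f X) (f Y) n).1 ∧ f (tw X Y n).2 = (tw (f X) (f Y) n).2 := by
  induction n with
  | zero => simp [tw]
  | succ n ih =>
    obtain ⟨h1, h2⟩ := ih
    constructor
    · simp only [tw, map_add, map_mul, map_ofNat, h1, h2]
    · simp only [tw, map_add, map_mul, map_ofNat, h1, h2]

theorem map_rt (X Y : R) (n : ℕ) :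
    f (rt X Y n).1 = (rt (f X) (f Y) n).1 ∧ f (rt X Y n).2 = (rt (f X) (f Y) n).2 := by
  induction n with
  | zero => simp [rt]
  | succ n ih =>
    obtain ⟨h1, h2⟩ := ih
    constructor
    · simp only [rt, map_add, map_mul, map_ofNat, map_natCast, map_pow, h1, h2]
    · simp only [rt, map_add, map_mul, map_ofNat, map_natCast, map_pow, h1, h2]

theorem map_tH (X Y : R) (j : ℕ) : f (tH X Y j) = tH (f X) (f Y) j := by
  simp only [tH, map_sub, map_add, map_neg, map_mul, map_ofNat, map_natCast, map_one,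
    (map_tw f X Y j).2, (map_rt f X Y j).1, (map_rt f X Y j).2]

theorem map_tx (q u v : R) (j : ℕ) : f (tx q u v j) = tx (f q) (f u) (f v) j := by
  simp only [tx, map_neg, map_sub, map_add, map_mul, map_one, (map_tw f _ _ j).1,
    (map_tw f _ _ j).2, map_pow]

end maps

/-! ### sizes -/

theorem tw_bd (n : ℕ) : ∃ C : ℝ, 0 ≤ C ∧ ∀ (X Y : ℂ) (V : ℝ), ‖X‖ ≤ V → ‖Y‖ ≤ V →
    ‖(tw X Y n).1‖ ≤ C * V ^ n ∧ ‖(tw X Y n).2‖ * V ≤ C * V ^ n := by
  induction n with
  | zero =>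
    refine ⟨1, zero_le_one, fun X Y V _ _ => ?_⟩
    simp [tw]
  | succ n ih =>
    obtain ⟨C, hC, h⟩ := ih
    refine ⟨4 * C, by positivity, fun X Y V hX hY => ?_⟩
    obtain ⟨h1, h2⟩ := h X Y V hX hY
    have hV : 0 ≤ V := (norm_nonneg _).trans hX
    have hXY : ‖X + Y‖ ≤ 2 * V := (norm_add_le _ _).trans (by linarith)
    have hXY2 : ‖X * Y‖ ≤ V * V := by
      rw [norm_mul]
      exact mul_le_mul hX hY (norm_nonneg _) hV
    constructor
    · rw [tw]
      simp only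
      calc ‖(X + Y) * (tw X Y n).1 + 2 * (X * Y) * (tw X Y n).2‖
          ≤ ‖(X + Y) * (tw X Y n).1‖ + ‖2 * (X * Y) * (tw X Y n).2‖ := norm_add_le _ _
        _ = ‖X + Y‖ * ‖(tw X Y n).1‖ + 2 * (‖X * Y‖ * ‖(tw X Y n).2‖) := by
            rw [norm_mul, norm_mul, norm_mul 2, RCLike.norm_ofNat]; ring
        _ ≤ 2 * V * (C * V ^ n) + 2 * (V * V * ‖(tw X Y n).2‖) := by
            have e1 := mul_le_mul hXY h1 (norm_nonneg _) (by linarith)
            have e2 := mul_le_mul_of_nonneg_right hXY2 (norm_nonneg (tw X Y n).2)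
            linarith
        _ = 2 * V * (C * V ^ n) + 2 * V * (‖(tw X Y n).2‖ * V) := by ring
        _ ≤ 2 * V * (C * V ^ n) + 2 * V * (C * V ^ n) := by
            have := mul_le_mul_of_nonneg_left h2 (by linarith : 0 ≤ 2 * V)
            linarith
        _ = _ := by ring
    · rw [tw]
      simp only
      calc ‖2 * (tw X Y n).1 + (X + Y) * (tw X Y n).2‖ * V
          ≤ (‖2 * (tw X Y n).1‖ + ‖(X + Y) * (tw X Y n).2‖) * V :=
            mul_le_mul_of_nonneg_right (norm_add_le _ _) hV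
        _ = 2 * V * ‖(tw X Y n).1‖ + ‖X + Y‖ * (‖(tw X Y n).2‖ * V) := by
            rw [norm_mul, norm_mul, RCLike.norm_ofNat]; ring
        _ ≤ 2 * V * (C * V ^ n) + 2 * V * (C * V ^ n) := by
            have e1 := mul_le_mul_of_nonneg_left h1 (by linarith : 0 ≤ 2 * V)
            have e2 := mul_le_mul hXY h2 (mul_nonneg (norm_nonneg _) hV) (by linarith)
            linarith
        _ = _ := by ring

theorem rt_bd (n : ℕ) : ∃ C : ℝ, 0 ≤ C ∧ ∀ (X Y : ℂ) (V : ℝ), ‖X‖ ≤ V → ‖Y‖ ≤ V →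
    ‖(rt X Y n).1‖ * V ≤ C * V ^ n ∧ ‖(rt X Y n).2‖ * V ≤ C * V ^ n := by
  induction n with
  | zero =>
    refine ⟨1, zero_le_one, fun X Y V _ _ => ?_⟩
    simp [rt]
  | succ n ih =>
    obtain ⟨C, hC, h⟩ := ih
    have hn : (0 : ℝ) ≤ n := Nat.cast_nonneg n
    refine ⟨1 + 4 * C + 4 * n, by positivity, fun X Y V hX hY => ?_⟩
    obtain ⟨h1, h2⟩ := h X Y V hX hY
    have hV : 0 ≤ V := (norm_nonneg _).trans hX
    have hXY : ‖X + Y‖ ≤ 2 * V := (norm_add_le _ _).trans (by linarith)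
    have hXn : ‖X ^ n‖ ≤ V ^ n := by
      rw [norm_pow]
      exact pow_le_pow_left₀ (norm_nonneg _) hX n
    have hVn : 0 ≤ V ^ n := pow_nonneg hV n
    have hnc : ‖(n : ℂ)‖ = n := Complex.norm_natCast n
    have f1 : ‖(X + Y) * (rt X Y n).1‖ * V ≤ 2 * V * (C * V ^ n) := by
      rw [norm_mul, mul_assoc]
      exact mul_le_mul hXY h1 (mul_nonneg (norm_nonneg _) hV) (by linarith)
    have f2 : ‖(X + Y) * (rt X Y n).2‖ * V ≤ 2 * V * (C * V ^ n) := by
      rw [norm_mul, mul_assoc]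
      exact mul_le_mul hXY h2 (mul_nonneg (norm_nonneg _) hV) (by linarith)
    have f3 : ‖X * (rt X Y n).1‖ * V ≤ V * (C * V ^ n) := by
      rw [norm_mul, mul_assoc]
      exact mul_le_mul hX h1 (mul_nonneg (norm_nonneg _) hV) hV
    have f4 : ‖Y * (rt X Y n).2‖ * V ≤ V * (C * V ^ n) := by
      rw [norm_mul, mul_assoc]
      exact mul_le_mul hY h2 (mul_nonneg (norm_nonneg _) hV) hV
    have f5 : ‖2 * (n : ℂ) * X ^ n‖ * V ≤ 2 * n * V ^ n * V := by
      rw [norm_mul, norm_mul, RCLike.norm_ofNat, hnc]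
      exact mul_le_mul_of_nonneg_right (mul_le_mul_of_nonneg_left hXn (by positivity)) hV
    have f6 : ‖X ^ n‖ * V ≤ V ^ n * V := mul_le_mul_of_nonneg_right hXn hV
    have hsucc : V ^ (n + 1) = V ^ n * V := pow_succ V n
    have hVV : 0 ≤ V ^ n * V := mul_nonneg hVn hV
    constructor
    · have g1 : ‖(rt X Y (n + 1)).1‖ ≤ ‖X ^ n‖ + ‖(X + Y) * (rt X Y n).1‖ +
          2 * (‖2 * (n : ℂ) * X ^ n‖ + ‖Y * (rt X Y n).2‖) := by
        rw [rt]
        simp only
        refine (norm_add_le _ _).trans (add_le_add (norm_add_le _ _) ?_)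
        rw [norm_mul, RCLike.norm_ofNat]
        exact mul_le_mul_of_nonneg_left (norm_add_le _ _) (by norm_num)
      have g2 := mul_le_mul_of_nonneg_right g1 hV
      rw [hsucc]
      nlinarith [mul_nonneg hC hVV, mul_nonneg hn hVV]
    · have g1 : ‖(rt X Y (n + 1)).2‖ ≤ 2 * ‖X * (rt X Y n).1‖ + ‖(X + Y) * (rt X Y n).2‖ +
          ‖2 * (n : ℂ) * X ^ n‖ := by
        rw [rt]
        simp only
        refine (norm_add_le _ _).trans (add_le_add_left ((norm_add_le _ _).trans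
          (add_le_add_left (le_of_eq ?_) _)) _)
        rw [mul_assoc, norm_mul, RCLike.norm_ofNat]
      have g2 := mul_le_mul_of_nonneg_right g1 hV
      rw [hsucc]
      nlinarith [mul_nonneg hC hVV, mul_nonneg hn hVV]

theorem tH_bd (j : ℕ) : ∃ C : ℝ, 0 ≤ C ∧ ∀ (X Y : ℂ) (V : ℝ), ‖X‖ ≤ V → ‖Y‖ ≤ V →
    ‖tH X Y j‖ * V ≤ C * V ^ j := by
  obtain ⟨C₁, h1, h1'⟩ := tw_bd j
  obtain ⟨C₂, h2, h2'⟩ := rt_bd j
  have hj : (0 : ℝ) ≤ j := Nat.cast_nonneg j
  refine ⟨2 * j * C₂ + C₂ + (2 * j + 1) * C₁, by positivity, fun X Y V hX hY => ?_⟩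
  have hV : 0 ≤ V := (norm_nonneg _).trans hX
  obtain ⟨-, a2⟩ := h1' X Y V hX hY
  obtain ⟨b1, b2⟩ := h2' X Y V hX hY
  have hnc : ‖(j : ℂ)‖ = j := Complex.norm_natCast j
  have hnc2 : ‖2 * (j : ℂ) + 1‖ = 2 * j + 1 := by
    have : (2 * (j : ℂ) + 1) = ((2 * j + 1 : ℕ) : ℂ) := by push_cast; ring
    rw [this, Complex.norm_natCast]; push_cast; ring
  have g1 : ‖tH X Y j‖ ≤ 2 * j * ‖(rt X Y j).1‖ + ‖(rt X Y j).2‖ +
      (2 * j + 1) * ‖(tw X Y j).2‖ := by
    rw [tH]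
    refine (norm_sub_le _ _).trans (add_le_add ((norm_add_le _ _).trans
      (add_le_add_left (le_of_eq ?_) _)) (le_of_eq ?_))
    · rw [norm_mul, norm_neg, norm_mul, RCLike.norm_ofNat, hnc]
    · rw [norm_mul, hnc2]
  calc ‖tH X Y j‖ * V ≤ (2 * j * ‖(rt X Y j).1‖ + ‖(rt X Y j).2‖ +
      (2 * j + 1) * ‖(tw X Y j).2‖) * V := mul_le_mul_of_nonneg_right g1 hV
    _ = 2 * j * (‖(rt X Y j).1‖ * V) + ‖(rt X Y j).2‖ * V + (2 * j + 1) * (‖(tw X Y j).2‖ * V) := by
        ring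
    _ ≤ 2 * j * (C₂ * V ^ j) + C₂ * V ^ j + (2 * j + 1) * (C₁ * V ^ j) := by
        have e1 := mul_le_mul_of_nonneg_left b1 (by positivity : (0 : ℝ) ≤ 2 * j)
        have e2 := mul_le_mul_of_nonneg_left a2 (by positivity : (0 : ℝ) ≤ 2 * j + 1)
        linarith
    _ = _ := by ring

/-! ### the form `x` -/

theorem tw_hom (t X Y : ℂ) (n : ℕ) : (tw (t * X) (t * Y) n).1 = t ^ n * (tw X Y n).1 ∧
    t * (tw (t * X) (t * Y) n).2 = t ^ n * (tw X Y n).2 := by
  induction n with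
  | zero => simp [tw]
  | succ n ih =>
    obtain ⟨h1, h2⟩ := ih
    constructor
    · rw [tw]
      simp only
      rw [h1, pow_succ, tw]
      linear_combination (2 * t * X * Y) * h2
    · rw [tw]
      simp only
      rw [h1, pow_succ, tw]
      linear_combination (t * X + t * Y) * h2

theorem tw_cont (n : ℕ) (f g : ℂ × ℂ → ℂ) (hf : Continuous f) (hg : Continuous g) :
    Continuous (fun p => (tw (f p) (g p) n).1) ∧ Continuous (fun p => (tw (f p) (g p) n).2) := by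
  induction n with
  | zero => exact ⟨continuous_const, continuous_const⟩
  | succ n ih =>
    obtain ⟨h1, h2⟩ := ih
    constructor
    · exact ((hf.add hg).mul h1).add ((continuous_const.mul (hf.mul hg)).mul h2)
    · exact (continuous_const.mul h1).add ((hf.add hg).mul h2)

theorem tx_hom (q t u v : ℂ) (j : ℕ) : tx q (t * u) (t * v) j = t ^ (j + 1) * tx q u v j := by
  have e : -(q ^ 2 * (t * u)) = t * -(q ^ 2 * u) := by ring
  obtain ⟨h1, h2⟩ := tw_hom t (-(q ^ 2 * u)) v j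
  rw [tx, tx, e]
  generalize tw (t * -(q ^ 2 * u)) (t * v) j = a at *
  generalize tw (-(q ^ 2 * u)) v j = b at *
  rw [h1, pow_succ]
  linear_combination (-((1 - q) * (q * t * u * v))) * h2

theorem tx_cont (q : ℂ) (j : ℕ) : Continuous fun p : ℂ × ℂ => tx q p.1 p.2 j := by
  have h := tw_cont j (fun p => -(q ^ 2 * p.1)) (fun p => p.2) (by fun_prop) (by fun_prop)
  unfold tx
  exact ((((continuous_const.mul continuous_fst).add continuous_snd).mul h.1).add
    ((continuous_const.mul ((continuous_const.mul continuous_fst).mul continuous_snd)).mul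
      h.2)).neg

/-- no common zero -/
theorem no_zero (j : ℕ) (hj : 1 ≤ j) (u v : ℂ)
    (hy : ((2 * j + 1) ^ 2 * u + v) ^ (2 * j + 1) * (u + v) = 0) (hx : tx (2 * (j : ℂ) + 1) u v j = 0) :
    u = 0 ∧ v = 0 := by
  obtain ⟨q, hq⟩ : ∃ q : ℂ, q = 2 * j + 1 := ⟨_, rfl⟩
  rw [← hq] at hy hx
  have hq0 : q ≠ 0 := by
    rw [hq]
    exact_mod_cast (by omega : 2 * j + 1 ≠ 0)
  have hq1 : 1 - q ≠ 0 := by
    have : 1 - q = -((2 * j : ℕ) : ℂ) := by rw [hq]; push_cast; ring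
    rw [this, neg_ne_zero]
    exact_mod_cast (by omega : 2 * j ≠ 0)
  have hA : tA q (-(q ^ 2 * u)) v j = 0 := by rw [tA_tx, hx, mul_zero]
  have h1 := main_id j u v q _ rfl
  rw [hA, hy] at h1
  have h2 : u * v * tE q (-(q ^ 2 * u)) v j ^ 2 = 0 := by
    have h3 : q ^ 2 * (u * v * tE q (-(q ^ 2 * u)) v j ^ 2) = 0 := by linear_combination h1
    exact (mul_eq_zero.1 h3).resolve_left (pow_ne_zero 2 hq0)
  rcases mul_eq_zero.1 h2 with h3 | h3
  · rcases mul_eq_zero.1 h3 with h4 | h4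
    · subst h4
      rw [mul_zero, zero_add] at hy
      rcases mul_eq_zero.1 hy with h5 | h5
      · exact ⟨rfl, pow_eq_zero_iff (by omega) |>.1 h5⟩
      · exact ⟨rfl, h5⟩
    · subst h4
      rw [add_zero] at hy
      rcases mul_eq_zero.1 hy with h5 | h5
      · have h6 := pow_eq_zero_iff (by omega) |>.1 h5
        exact ⟨(mul_eq_zero.1 h6).resolve_left (pow_ne_zero 2 hq0), rfl⟩
      · rw [add_zero] at h5
        exact ⟨h5, rfl⟩
  · have hE : tE q (-(q ^ 2 * u)) v j = 0 := pow_eq_zero_iff (by norm_num) |>.1 h3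
    have h4 := tA_tE_cross q (-(q ^ 2 * u)) v j
    rw [hE, hA, zero_mul, zero_mul, sub_zero] at h4
    have h5 : -(q ^ 2 * u) - v = 0 := by
      have h6 := (mul_eq_zero.1 h4.symm).resolve_left hq1
      exact pow_eq_zero_iff (by omega) |>.1 h6
    obtain ⟨i, rfl⟩ : ∃ i, j = i + 1 := ⟨j - 1, by omega⟩
    have h6 := tA_mod q (-(q ^ 2 * u)) v i
    rw [h5, zero_dvd_iff, hA, zero_sub, neg_eq_zero] at h6
    have hv : v = 0 := by
      rcases mul_eq_zero.1 h6 with h7 | h7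
      · rcases mul_eq_zero.1 h7 with h8 | h8
        · exact absurd h8 hq1
        · exact absurd h8 (pow_ne_zero _ (by norm_num))
      · exact pow_eq_zero_iff (by omega) |>.1 h7
    refine ⟨?_, hv⟩
    rw [hv, sub_zero, neg_eq_zero] at h5
    exact (mul_eq_zero.1 h5).resolve_left (pow_ne_zero 2 hq0)

/-- the cover over the ring -/
theorem odd_cover {R : Type} [CommRing R] (D : Ar R) (j : ℕ) (hj : 1 ≤ j) (u v s : R)
    (huv : IsCoprime u v) (hs : u + v = s ^ (2 * j + 1))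
    (hd : ((2 * j + 1) * (2 * j) : R) ∣ u) :
    IsCoprime (((2 * j + 1) ^ 2 * u + v) * s) (tx (2 * (j : R) + 1) u v j) ∧
      tH (-((2 * j + 1) ^ 2 * u)) v j ≠ 0 ∧
      (((2 * j + 1) ^ 2 * u + v) * s) ^ (2 * j + 1) - tx (2 * (j : R) + 1) u v j ^ 2 =
        u * v * (v * tH (-((2 * j + 1) ^ 2 * u)) v j) ^ 2 := by
  have := isDomain D
  have := charZero D
  obtain ⟨q, hq⟩ : ∃ q : R, q = 2 * j + 1 := ⟨_, rfl⟩
  have hq1 : (2 * j : R) = q - 1 := by rw [hq]; ring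
  have hqn : q = ((2 * j + 1 : ℕ) : R) := by rw [hq]; push_cast; ring
  have hq0 : q ≠ 0 := by
    rw [hqn]
    exact_mod_cast (by omega : 2 * j + 1 ≠ 0)
  have hqu' : ¬ IsUnit q := by
    rw [hqn]
    exact nat_not_unit D (by omega)
  rw [← hq, hq1] at hd
  have hEH : tE q (-(q ^ 2 * u)) v j = v * tH (-(q ^ 2 * u)) v j := by
    rw [hq]; exact tE_eq _ v j
  rw [← hq]
  have hqu : q ∣ u := dvd_trans ⟨q - 1, rfl⟩ hd
  have hqu1 : (q - 1) ∣ u := dvd_trans ⟨q, by ring⟩ hd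
  have hqv : IsCoprime q v := huv.of_isCoprime_of_dvd_left hqu
  have hmain : (((q ^ 2 * u + v) * s) ^ (2 * j + 1)) - tx q u v j ^ 2 =
      u * v * (v * tH (-(q ^ 2 * u)) v j) ^ 2 := by
    have h1 := main_id j u v q _ rfl
    rw [tA_tx, hEH, hs] at h1
    have h4 : q ^ 2 * ((((q ^ 2 * u + v) * s) ^ (2 * j + 1)) - tx q u v j ^ 2) =
        q ^ 2 * (u * v * (v * tH (-(q ^ 2 * u)) v j) ^ 2) := by
      rw [mul_pow]
      linear_combination -h1
    exact mul_left_cancel₀ (pow_ne_zero 2 hq0) h4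
  refine ⟨?_, ?_, hmain⟩
  · apply isCoprime_of_max
    intro P hP hy hx
    have hPp := hP.isPrime
    have hsP : s ∈ P → u + v ∈ P := fun h => by
      rw [hs]
      exact P.pow_mem_of_mem h _ (by omega)
    have hPu : u ∉ P := by
      intro h
      have hv : v ∉ P := fun h' => not_both huv hP h h'
      rcases hPp.mem_or_mem hy with h1 | h1
      · exact hv (by
          have := P.sub_mem h1 (P.mul_mem_left (q ^ 2) h)
          rwa [add_sub_cancel_left] at this)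
      · exact hv (by
          have := P.sub_mem (hsP h1) h
          rwa [add_sub_cancel_left] at this)
    have hPv : v ∉ P := by
      intro h
      rcases hPp.mem_or_mem hy with h1 | h1
      · have h2 : q ^ 2 * u ∈ P := by
          have := P.sub_mem h1 h
          rwa [add_sub_cancel_right] at this
        rcases hPp.mem_or_mem h2 with h3 | h3
        · exact hPu (mem_of_dvd hqu (hPp.mem_of_pow_mem _ h3))
        · exact hPu h3
      · exact hPu (by
          have := P.sub_mem (hsP h1) h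
          rwa [add_sub_cancel_right] at this)
    have hPA : tA q (-(q ^ 2 * u)) v j ∈ P := by rw [tA_tx]; exact P.mul_mem_left _ hx
    have hPE : tE q (-(q ^ 2 * u)) v j ∈ P := by
      rw [hEH]
      have h1 : u * v * (v * tH (-(q ^ 2 * u)) v j) ^ 2 ∈ P := by
        rw [← hmain]
        exact P.sub_mem (P.pow_mem_of_mem hy _ (by omega)) (P.pow_mem_of_mem hx _ (by norm_num))
      rcases hPp.mem_or_mem h1 with h2 | h2
      · rcases hPp.mem_or_mem h2 with h3 | h3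
        · exact absurd h3 hPu
        · exact absurd h3 hPv
      · exact hPp.mem_of_pow_mem _ h2
    have hPq1 : 1 - q ∉ P := fun h => hPu (by
      have : q - 1 ∈ P := by rw [show q - 1 = -(1 - q) by ring]; exact P.neg_mem h
      exact mem_of_dvd hqu1 this)
    have h1 : (1 - q) * (-(q ^ 2 * u) - v) ^ (2 * j) ∈ P := by
      rw [← tA_tE_cross]
      exact P.sub_mem (P.mul_mem_right _ hPE) (P.mul_mem_right _ hPA)
    rcases hPp.mem_or_mem h1 with h2 | h2
    · exact hPq1 h2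
    have h3 := hPp.mem_of_pow_mem _ h2
    obtain ⟨i, rfl⟩ : ∃ i, j = i + 1 := ⟨j - 1, by omega⟩
    have h4 : (1 - q) * 4 ^ (i + 1) * v ^ (i + 2) ∈ P := by
      have h5 := mem_of_dvd (tA_mod q (-(q ^ 2 * u)) v i) h3
      have h6 := P.sub_mem hPA h5
      rwa [sub_sub_cancel] at h6
    rcases hPp.mem_or_mem h4 with h5 | h5
    · rcases hPp.mem_or_mem h5 with h6 | h6
      · exact hPq1 h6
      · have h7 : (2 : R) ∈ P := by
          have h8 := hPp.mem_of_pow_mem _ h6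
          rw [show (4 : R) = 2 ^ 2 by norm_num] at h8
          exact hPp.mem_of_pow_mem _ h8
        exact hPu (mem_of_dvd (dvd_trans ⟨((i + 1 : ℕ) : R), by rw [← hq1]⟩ hqu1) h7)
    · exact hPv (hPp.mem_of_pow_mem _ h5)
  · intro h0
    rw [h0, mul_zero] at hEH
    have h1 := tw_modX (-(q ^ 2 * u)) v j
    have h2 : q ∣ -(q ^ 2 * u) := ⟨-(q * u), by ring⟩
    have h3 : q ∣ v ^ j := by
      have h4 : q ∣ (tw (-(q ^ 2 * u)) v j).1 := by
        rw [tE] at hEH
        refine ⟨(tw (-(q ^ 2 * u)) v j).1 - (-(q * u) - v) * (tw (-(q ^ 2 * u)) v j).2, ?_⟩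
        linear_combination hEH
      have h6 := dvd_sub h4 (h2.trans h1)
      rwa [sub_sub_cancel] at h6
    have h4 : IsUnit q := (hqv.pow_right (n := j)).isUnit_of_dvd' dvd_rfl h3
    exact hqu' h4

/-- **From two cusps of order `q` to one cusp.** -/
theorem t : LeafOdd := by
  intro R _ D j N hj hN hL
  have := isDomain D
  have := charZero D
  obtain ⟨C₁, hC₁, hH⟩ := tH_bd j
  obtain ⟨C₂, hC₂, hlow⟩ := hom_lower
    (fun p => ((2 * j + 1) ^ 2 * p.1 + p.2) ^ (2 * j + 1) * (p.1 + p.2))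
    (fun p => tx (2 * (j : ℂ) + 1) p.1 p.2 j ^ 2) (by fun_prop) ((tx_cont _ j).pow 2) (2 * j + 2)
    (by omega)
    (fun t p => by
      simp only [Prod.smul_fst, Prod.smul_snd, smul_eq_mul]
      have e : (2 * (j : ℂ) + 1) ^ 2 * (t * p.1) + t * p.2 =
        t * ((2 * (j : ℂ) + 1) ^ 2 * p.1 + p.2) := by ring
      rw [e, mul_pow]; ring)
    (fun t p => by
      simp only [Prod.smul_fst, Prod.smul_snd, smul_eq_mul]
      rw [tx_hom, mul_pow, ← pow_mul]
      congr 2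
      ring)
    (by
      rintro ⟨x, y⟩ h1 h2
      simp only at h1 h2
      obtain ⟨h3, h4⟩ := no_zero j hj x y h1 (pow_eq_zero_iff (by norm_num) |>.1 h2)
      rw [h3, h4]
      rfl)
  have hj1 : (1 : ℝ) ≤ j := by exact_mod_cast hj
  set Q : ℝ := (2 * j + 1) ^ 2 with hQ
  have hQ1 : 1 ≤ Q := by rw [hQ]; nlinarith
  set K : ℝ := 1 + C₂ + C₁ * Q ^ (j - 1) with hK
  have hQj : 0 < Q ^ (j - 1) := by positivity
  have hCQ : 0 ≤ C₁ * Q ^ (j - 1) := mul_nonneg hC₁ hQj.le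
  have hK1 : 1 ≤ K := by rw [hK]; linarith
  have hθ' : (0 : ℝ) < 1 - 1 / ((2 * j + 1 : ℕ) : ℝ) - 1 / ((2 : ℕ) : ℝ) := by
    push_cast
    have h3 : 1 / (2 * (j : ℝ) + 1) ≤ 1 / 3 := one_div_le_one_div_of_le (by norm_num) (by linarith)
    linarith
  refine transfer D (2 * j + 2) ((j - 1 : ℕ) : ℝ) K hK1 hθ' ?_
    (fun s _ i => le_max_of_le_left (norm_nonneg _))
    (fun s hs => le_norm_prod D hs.2.1 fun i => le_max_left _ _)
    (fun s hs => mul_ne_zero hs.2.1 hs.2.2.1) ?_ hL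
  · rw [Nat.cast_sub hj]
    push_cast
    have h3 : (2 * (j : ℝ) + 1) ≠ 0 := by linarith
    field_simp
    ring_nf
    exact le_refl _
  rintro ⟨u, v, s⟩ ⟨huv, hu, hv, hs, hd⟩
  simp only at huv hu hv hs hd
  right
  have hd1 : ((2 * j + 1) * (2 * j) : R) ∣ u := by
    refine dvd_trans ⟨(N : R), ?_⟩ hd
    push_cast
    ring
  have hNu : (N : R) ∣ u := by
    refine dvd_trans ⟨((2 * j + 1) * (2 * j) : R), ?_⟩ hd
    push_cast
    ring
  obtain ⟨h1, h2, h3⟩ := odd_cover D j hj u v s huv hs hd1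
  set H : R := tH (-((2 * j + 1) ^ 2 * u)) v j with hHdef
  set y : R := ((2 * j + 1) ^ 2 * u + v) * s with hy
  set x : R := tx (2 * (j : R) + 1) u v j with hx
  have h4 : u * v * (v * H) ^ 2 ≠ 0 :=
    mul_ne_zero (mul_ne_zero hu hv) (pow_ne_zero 2 (mul_ne_zero hv h2))
  refine ⟨(y, x), ⟨h1, ?_, ?_⟩, ?_, H, h2, mul_ne_zero (mul_ne_zero hu hv) h2, ?_, 3, ?_⟩
  · intro h5
    simp only at h5
    apply h4
    rw [← h3, h5, sub_self]
  · simp only
    rw [h3, mul_assoc]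
    exact hNu.mul_right _
  · intro i
    simp only
    have h5 := hlow (D.σ i u, D.σ i v)
    simp only at h5
    have e1 : D.σ i (y ^ (2 * j + 1)) = ((2 * j + 1) ^ 2 * D.σ i u + D.σ i v) ^ (2 * j + 1) *
        (D.σ i u + D.σ i v) := by
      rw [hy, mul_pow, ← hs]
      simp only [map_mul, map_pow, map_add, map_natCast, map_ofNat, map_one]
    have e2 : D.σ i x = tx (2 * (j : ℂ) + 1) (D.σ i u) (D.σ i v) j := by
      rw [hx, map_tx]
      simp only [map_mul, map_add, map_natCast, map_ofNat, map_one]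
    rw [← e1, ← e2, Prod.norm_def] at h5
    rw [map_pow, norm_pow, norm_pow] at h5
    refine h5.trans (mul_le_mul_of_nonneg_right (by rw [hK]; linarith)
      (le_max_of_le_right (by positivity)))
  · intro i
    simp only
    rw [Real.rpow_natCast]
    set M : ℝ := max ‖D.σ i u‖ ‖D.σ i v‖ with hM
    have hM0 : 0 < M := lt_max_of_lt_left (norm_pos_iff.2 (sigma_ne_zero D hu i))
    have e1 : D.σ i H = tH (-((2 * j + 1) ^ 2 * D.σ i u)) (D.σ i v) j := by
      rw [hHdef, map_tH]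
      simp only [map_neg, map_mul, map_pow, map_add, map_natCast, map_ofNat, map_one]
    have hn : ‖(2 * (j : ℂ) + 1)‖ = 2 * j + 1 := by
      have : (2 * (j : ℂ) + 1) = ((2 * j + 1 : ℕ) : ℂ) := by push_cast; ring
      rw [this, Complex.norm_natCast]; push_cast; ring
    have h5 := hH (-((2 * j + 1) ^ 2 * D.σ i u)) (D.σ i v) (Q * M)
      (by
        rw [norm_neg, norm_mul, norm_pow, hn]
        exact mul_le_mul_of_nonneg_left (le_max_left _ _) (by positivity))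
      (by
        have h6 : ‖D.σ i v‖ ≤ M := le_max_right _ _
        nlinarith)
    rw [← e1] at h5
    obtain ⟨m, rfl⟩ : ∃ m, j = m + 1 := ⟨j - 1, by omega⟩
    have h6 : ‖D.σ i H‖ * (Q * M) ≤ (C₁ * Q ^ m * M ^ m) * (Q * M) := by
      refine h5.trans (le_of_eq ?_)
      rw [mul_pow, pow_succ, pow_succ]
      ring
    have h7 := le_of_mul_le_mul_right h6 (by positivity)
    have h8 : m + 1 - 1 = m := by omega
    rw [h8]
    rw [h8] at hK
    refine h7.trans (mul_le_mul_of_nonneg_right ?_ (by positivity))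
    rw [hK]
    linarith
  · simp only
    rw [h3]
    exact ⟨u ^ 2 * H, by ring⟩

end Pool.Agent.N348.GA
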